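import Pool.Agent.X199.UltraAlg
import Pool.Agent.X199.K1

/-!
# A `K₁*`-embedded subspace that is not `K₁`-embedded
-/

set_option autoImplicit false

open Set Topology Filter

namespace Pool.Agent.Results.MP_b12a75_gt.BoundedNotUnbounded

open Pool.Agent.X199.Ultra Pool.Agent.X199.K1

/-- Traces on `𝔹` of ultrafilters on `ℤ`: the fixed ones, and those that for every `e` avoid one
of the sets `D e e'`. -/
def Pts (𝔹 : Set (Set ℤ)) (D : ℤ → ℤ → Set ℤ) : Type :=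
  {p : Set (Set ℤ) // (∃ u : Ultrafilter ℤ, p = {B | B ∈ 𝔹 ∧ B ∈ u}) ∧
    ((∃ e : ℤ, p = {B | B ∈ 𝔹 ∧ e ∈ B}) ∨ ∀ e, ∃ e', D e e' ∉ p)}

variable {𝔹 : Set (Set ℤ)} {D : ℤ → ℤ → Set ℤ}

theorem mem_inter (h𝔹 : Alg 𝔹) (p : Pts 𝔹 D) {B C : Set ℤ} (hB : B ∈ p.1) (hC : C ∈ p.1) :
    B ∩ C ∈ p.1 := by
  obtain ⟨⟨u, hu⟩, -⟩ := p.2
  rw [hu] at hB hC ⊢
  exact ⟨h𝔹.inter_mem B hB.1 C hC.1, u.inter_sets hB.2 hC.2⟩

theorem mem_univ' (h𝔹 : Alg 𝔹) (p : Pts 𝔹 D) : univ ∈ p.1 := by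
  obtain ⟨⟨u, hu⟩, -⟩ := p.2
  rw [hu]
  exact ⟨h𝔹.univ_mem, Filter.univ_mem⟩

theorem mem_alg {p : Pts 𝔹 D} {B : Set ℤ} (hB : B ∈ p.1) : B ∈ 𝔹 := by
  obtain ⟨⟨u, hu⟩, -⟩ := p.2
  rw [hu] at hB
  exact hB.1

theorem mem_mono (p : Pts 𝔹 D) {B C : Set ℤ} (hB : B ∈ p.1) (hC : C ∈ 𝔹) (h : B ⊆ C) :
    C ∈ p.1 := by
  obtain ⟨⟨u, hu⟩, -⟩ := p.2
  rw [hu] at hB ⊢
  exact ⟨hC, mem_of_superset hB.2 h⟩

theorem nonempty_of_mem' {p : Pts 𝔹 D} {B : Set ℤ} (hB : B ∈ p.1) : B.Nonempty := by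
  obtain ⟨⟨u, hu⟩, -⟩ := p.2
  rw [hu] at hB
  exact u.nonempty_of_mem hB.2

theorem compl_mem_iff (h𝔹 : Alg 𝔹) (p : Pts 𝔹 D) {B : Set ℤ} (hB : B ∈ 𝔹) :
    Bᶜ ∈ p.1 ↔ B ∉ p.1 := by
  obtain ⟨⟨u, hu⟩, -⟩ := p.2
  rw [hu]
  constructor
  · rintro ⟨-, h1⟩ ⟨-, h2⟩
    exact (Ultrafilter.compl_mem_iff_notMem.1 h1) h2
  · intro h
    exact ⟨h𝔹.compl_mem B hB, Ultrafilter.compl_mem_iff_notMem.2 fun h2 => h ⟨hB, h2⟩⟩

/-- The topology generated by the sets `{p | B ∈ p}`. -/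
instance top (𝔹 : Set (Set ℤ)) (D : ℤ → ℤ → Set ℤ) [h𝔹 : Fact (Alg 𝔹)] :
    TopologicalSpace (Pts 𝔹 D) where
  IsOpen O := ∀ p ∈ O, ∃ B, B ∈ p.1 ∧ ∀ q : Pts 𝔹 D, B ∈ q.1 → q ∈ O
  isOpen_univ := fun p _ => ⟨univ, mem_univ' h𝔹.out p, fun _ _ => mem_univ _⟩
  isOpen_inter := by
    intro O O' h h' p hp
    obtain ⟨B, h1, h2⟩ := h p hp.1
    obtain ⟨C, h3, h4⟩ := h' p hp.2
    refine ⟨B ∩ C, mem_inter h𝔹.out p h1 h3, fun q hq => ⟨h2 q ?_, h4 q ?_⟩⟩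
    · exact mem_mono q hq (mem_alg h1) inter_subset_left
    · exact mem_mono q hq (mem_alg h3) inter_subset_right
  isOpen_sUnion := by
    intro S hS p hp
    obtain ⟨O, hO, hpO⟩ := hp
    obtain ⟨B, h1, h2⟩ := hS O hO p hpO
    exact ⟨B, h1, fun q hq => ⟨O, hO, h2 q hq⟩⟩

variable [h𝔹 : Fact (Alg 𝔹)]

theorem isOpen_iffK {O : Set (Pts 𝔹 D)} :
    IsOpen O ↔ ∀ p ∈ O, ∃ B, B ∈ p.1 ∧ ∀ q : Pts 𝔹 D, B ∈ q.1 → q ∈ O := Iff.rfl

/-- The clopen set determined by a member of the algebra. -/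
def hat (B : Set ℤ) : Set (Pts 𝔹 D) := {p | B ∈ p.1}

theorem isOpen_hat (B : Set ℤ) : IsOpen (hat B : Set (Pts 𝔹 D)) :=
  isOpen_iffK.2 fun _ hp => ⟨B, hp, fun _ hq => hq⟩

theorem isClopen_hat {B : Set ℤ} (hB : B ∈ 𝔹) : IsClopen (hat B : Set (Pts 𝔹 D)) := by
  refine ⟨⟨?_⟩, isOpen_hat B⟩
  have : (hat B : Set (Pts 𝔹 D))ᶜ = hat Bᶜ := by
    ext p
    exact (compl_mem_iff h𝔹.out p hB).symm
  rw [this]
  exact isOpen_hat _

theorem basisK : TopologicalSpace.IsTopologicalBasis {s : Set (Pts 𝔹 D) | IsClopen s} := by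
  refine TopologicalSpace.isTopologicalBasis_of_isOpen_of_nhds (fun s hs => hs.2) ?_
  intro p O hp hO
  obtain ⟨B, h1, h2⟩ := isOpen_iffK.1 hO p hp
  exact ⟨hat B, isClopen_hat (mem_alg h1), h1, h2⟩

theorem t2K : T2Space (Pts 𝔹 D) := by
  have key : ∀ p q : Pts 𝔹 D, ∀ B, B ∈ p.1 → B ∉ q.1 →
      ∃ U : Set (Pts 𝔹 D), IsClopen U ∧ p ∈ U ∧ q ∉ U := fun p q B h1 h2 =>
    ⟨hat B, isClopen_hat (mem_alg h1), h1, h2⟩
  refine ⟨fun p q hne => ?_⟩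
  have h1 : p.1 ≠ q.1 := fun h => hne (Subtype.ext h)
  have h2 : (∃ B, B ∈ p.1 ∧ B ∉ q.1) ∨ ∃ B, B ∈ q.1 ∧ B ∉ p.1 := by
    by_contra hcon
    push Not at hcon
    exact h1 (Set.ext fun B => ⟨hcon.1 B, hcon.2 B⟩)
  rcases h2 with ⟨B, h3, h4⟩ | ⟨B, h3, h4⟩
  · obtain ⟨U, hU, hp, hq⟩ := key p q B h3 h4
    exact ⟨U, Uᶜ, hU.2, hU.1.isOpen_compl, hp, hq, disjoint_compl_right⟩
  · obtain ⟨U, hU, hp, hq⟩ := key q p B h3 h4
    exact ⟨Uᶜ, U, hU.1.isOpen_compl, hU.2, hq, hp, disjoint_compl_left⟩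

/-- The embedding of `ℤ`. -/
def emb (𝔹 : Set (Set ℤ)) (D : ℤ → ℤ → Set ℤ) (e : ℤ) : Pts 𝔹 D :=
  ⟨{B | B ∈ 𝔹 ∧ e ∈ B}, ⟨pure e, by
    ext B
    simp⟩, Or.inl ⟨e, rfl⟩⟩

theorem mem_emb {B : Set ℤ} (hB : B ∈ 𝔹) {e : ℤ} : B ∈ (emb 𝔹 D e).1 ↔ e ∈ B :=
  ⟨fun h => h.2, fun h => ⟨hB, h⟩⟩

theorem emb_inj : Function.Injective (emb 𝔹 D) := by
  intro a b hab
  by_contra hne
  obtain ⟨B, hB, h1, h2⟩ := h𝔹.out.sep a b hne
  have h3 : B ∈ (emb 𝔹 D a).1 := (mem_emb (D := D) hB).2 h1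
  rw [hab] at h3
  exact h2 ((mem_emb (D := D) hB).1 h3)

/-- The separating sets used in the definition of the space. -/
structure Sep (𝔹 : Set (Set ℤ)) (D : ℤ → ℤ → Set ℤ) : Prop where
  mem : ∀ a b, D a b ∈ 𝔹
  left : ∀ a b, a ∈ D a b
  right : ∀ a b, a ≠ b → b ∉ D a b

theorem singleton_eq (hD : Sep 𝔹 D) (e : ℤ) :
    ({emb 𝔹 D e} : Set (Pts 𝔹 D)) = ⋂ e', hat (D e e') := by
  ext p
  constructor
  · intro hp
    rw [mem_singleton_iff] at hp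
    rw [hp]
    exact mem_iInter.2 fun e' => (mem_emb (D := D) (hD.mem e e')).2 (hD.left e e')
  · intro hp
    rw [mem_iInter] at hp
    rcases p.2.2 with ⟨b, hb⟩ | h
    · have hpb : p = emb 𝔹 D b := Subtype.ext hb
      by_cases hbe : e = b
      · rw [hbe]
        exact hpb
      · have h1 := hp b
        rw [hpb] at h1
        exact absurd ((mem_emb (D := D) (hD.mem e b)).1 h1) (hD.right e b hbe)
    · obtain ⟨e', he'⟩ := h e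
      exact absurd (hp e') he'

theorem funClosed_singleton (hD : Sep 𝔹 D) (e : ℤ) :
    FunClosed ({emb 𝔹 D e} : Set (Pts 𝔹 D)) := by
  rw [singleton_eq hD e]
  exact FunClosed.iInter fun e' => FunClosed.of_isClopen (isClopen_hat (hD.mem e e'))

theorem funAdd_singleton_compl (hD : Sep 𝔹 D) (e : ℤ) :
    FunAdd ({emb 𝔹 D e}ᶜ : Set (Pts 𝔹 D)) := by
  rw [singleton_eq hD e, compl_iInter]
  exact FunAdd.iUnion fun e' =>
    (FunClosed.of_isClopen (isClopen_hat (hD.mem e e')).compl).funAdd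

theorem funAdd_image (hD : Sep 𝔹 D) (N : Set ℤ) : FunAdd (emb 𝔹 D '' N) := by
  have : emb 𝔹 D '' N = ⋃ e : N, {emb 𝔹 D e.1} := by
    ext p
    constructor
    · rintro ⟨e, he, rfl⟩
      exact mem_iUnion.2 ⟨⟨e, he⟩, rfl⟩
    · intro hp
      obtain ⟨e, he⟩ := mem_iUnion.1 hp
      exact ⟨e.1, e.2, he.symm⟩
  rw [this]
  exact FunAdd.iUnion fun e => (funClosed_singleton hD e.1).funAdd

theorem scattered_compl (hD : Sep 𝔹 D) (N : Set ℤ) (hN : ∀ R ⊆ N, Crowded 𝔹 R → R = ∅) :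
    FunAdd (emb 𝔹 D '' N)ᶜ := by
  classical
  let good : Set ℤ → Prop := fun C => C ∈ 𝔹 ∧ FunAdd (hat C \ emb 𝔹 D '' N)
  let O : Set ℤ := {e | ∃ C, good C ∧ e ∈ C}
  have hemp : good ∅ := by
    refine ⟨?_, ?_⟩
    · have := h𝔹.out.compl_mem _ h𝔹.out.univ_mem
      rwa [compl_univ] at this
    · have : (hat ∅ : Set (Pts 𝔹 D)) = ∅ := by
        ext p
        exact ⟨fun h => absurd (nonempty_of_mem' h) (by simp), fun h => absurd h (notMem_empty p)⟩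
      rw [this, empty_sdiff]
      exact FunAdd.empty
  have h1 : ∀ e : ℤ, ∃ C, good C ∧ (e ∈ O → e ∈ C) ∧ (e ∉ O → C = ∅) := by
    intro e
    by_cases he : e ∈ O
    · obtain ⟨C, hC, heC⟩ := he
      exact ⟨C, hC, fun _ => heC, fun h => absurd ⟨C, hC, heC⟩ h⟩
    · exact ⟨∅, hemp, fun h => absurd h he, fun _ => rfl⟩
  choose C hC1 hC2 hC3 using h1
  have hCO : ∀ e, C e ⊆ O := fun e x hx => ⟨C e, hC1 e, hx⟩
  -- every point of `N` is in `O`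
  have hNO : N ⊆ O := by
    by_contra hcon
    have hne : (N \ O).Nonempty := by
      obtain ⟨x, hx1, hx2⟩ := not_subset.1 hcon
      exact ⟨x, hx1, hx2⟩
    have hnc : ¬ Crowded 𝔹 (N \ O) := fun h => hne.ne_empty (hN _ sdiff_subset h)
    unfold Crowded at hnc
    push Not at hnc
    obtain ⟨x, hx, B, hB, hxB, hxu⟩ := hnc
    apply hx.2
    refine ⟨B, ⟨hB, ?_⟩, hxB⟩
    have heq : (hat B \ emb 𝔹 D '' N : Set (Pts 𝔹 D)) =
        ((hat B ∩ ⋂ e, (hat (C e))ᶜ) ∩ {emb 𝔹 D x}ᶜ) ∪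
          ⋃ e, (hat B ∩ (hat (C e) \ emb 𝔹 D '' N)) := by
      ext p
      constructor
      · rintro ⟨hpB, hpN⟩
        by_cases h : ∃ e, p ∈ (hat (C e) : Set (Pts 𝔹 D))
        · obtain ⟨e, he⟩ := h
          exact Or.inr (mem_iUnion.2 ⟨e, hpB, he, hpN⟩)
        · push Not at h
          refine Or.inl ⟨⟨hpB, mem_iInter.2 h⟩, fun hpx => hpN ⟨x, hx.1, ?_⟩⟩
          exact (mem_singleton_iff.1 hpx).symm
      · rintro (⟨⟨hpB, hpC⟩, hpx⟩ | hp)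
        · refine ⟨hpB, ?_⟩
          rintro ⟨y, hyN, rfl⟩
          have hyB : y ∈ B := (mem_emb (D := D) hB).1 hpB
          by_cases hyO : y ∈ O
          · exact mem_iInter.1 hpC y ((mem_emb (D := D) (hC1 y).1).2 (hC2 y hyO))
          · have := hxu y ⟨hyN, hyO⟩ hyB
            exact hpx (by rw [this]; rfl)
        · obtain ⟨e, he⟩ := mem_iUnion.1 hp
          exact ⟨he.1, he.2.2⟩
    rw [heq]
    refine FunAdd.union (FunAdd.inter ?_ (funAdd_singleton_compl hD x)) (FunAdd.iUnion fun e => ?_)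
    · refine (FunClosed.inter (FunClosed.of_isClopen (isClopen_hat hB))
        (FunClosed.iInter fun e => FunClosed.of_isClopen (isClopen_hat (hC1 e).1).compl)).funAdd
    · exact FunAdd.inter (FunClosed.of_isClopen (isClopen_hat hB)).funAdd (hC1 e).2
  have heq : (emb 𝔹 D '' N)ᶜ = (⋂ e, (hat (C e) : Set (Pts 𝔹 D))ᶜ) ∪
      ⋃ e, (hat (C e) \ emb 𝔹 D '' N) := by
    ext p
    constructor
    · intro hp
      by_cases h : ∃ e, p ∈ (hat (C e) : Set (Pts 𝔹 D))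
      · obtain ⟨e, he⟩ := h
        exact Or.inr (mem_iUnion.2 ⟨e, he, hp⟩)
      · push Not at h
        exact Or.inl (mem_iInter.2 h)
    · rintro (hp | hp)
      · rintro ⟨y, hyN, rfl⟩
        exact mem_iInter.1 hp y ((mem_emb (D := D) (hC1 y).1).2 (hC2 y (hNO hyN)))
      · obtain ⟨e, he⟩ := mem_iUnion.1 hp
        exact he.2
  rw [heq]
  refine FunAdd.union (FunClosed.iInter fun e =>
    FunClosed.of_isClopen (isClopen_hat (hC1 e).1).compl).funAdd (FunAdd.iUnion fun e => (hC1 e).2)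

theorem amb_scattered (hD : Sep 𝔹 D) (N : Set ℤ) (hN : ∀ R ⊆ N, Crowded 𝔹 R → R = ∅) :
    Amb (emb 𝔹 D '' N) := ⟨funAdd_image hD N, scattered_compl hD N hN⟩

theorem exists_trace (hmax : ∀ 𝔸, Alg 𝔸 → 𝔹 ⊆ 𝔸 → 𝔸 ⊆ 𝔹) (hD : Sep 𝔹 D)
    (S : Set (Pts 𝔹 D)) (hS : S ⊆ range (emb 𝔹 D)) : ∃ T, Amb T ∧ T ∩ range (emb 𝔹 D) = S := by
  obtain ⟨C, hC, hsc⟩ := exists_scattered_diff h𝔹.out hmax (emb 𝔹 D ⁻¹' S)
  set S' : Set ℤ := emb 𝔹 D ⁻¹' S with hS'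
  have h1 : Amb (emb 𝔹 D '' (C \ S')) := amb_scattered hD _ fun R hR hc =>
    hsc R (hR.trans subset_union_right) hc
  have h2 : Amb (emb 𝔹 D '' (S' \ C)) := amb_scattered hD _ fun R hR hc =>
    hsc R (hR.trans subset_union_left) hc
  refine ⟨(hat C ∩ (emb 𝔹 D '' (C \ S'))ᶜ) ∪ emb 𝔹 D '' (S' \ C),
    ((Amb.of_isClopen (isClopen_hat hC)).inter h1.compl).union h2, ?_⟩
  ext p
  constructor
  · rintro ⟨h3 | h3, e, rfl⟩
    · by_contra hp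
      exact h3.2 ⟨e, ⟨(mem_emb (D := D) hC).1 h3.1, hp⟩, rfl⟩
    · obtain ⟨e', he', heq⟩ := h3
      rw [← heq]
      exact he'.1
  · intro hp
    obtain ⟨e, rfl⟩ := hS hp
    refine ⟨?_, e, rfl⟩
    by_cases heC : e ∈ C
    · refine Or.inl ⟨(mem_emb (D := D) hC).2 heC, ?_⟩
      rintro ⟨e', he', heq⟩
      rw [emb_inj heq] at he'
      exact he'.2 hp
    · exact Or.inr ⟨e, ⟨hp, heC⟩, rfl⟩

/-- A Baire category argument. -/
theorem baire (hD : Sep 𝔹 D) (F : ℕ → Set (Pts 𝔹 D)) (hF : ∀ k, IsClosed (F k))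
    (hc : ⋃ k, F k = univ) : ∃ k, ∃ C ∈ 𝔹, C.Nonempty ∧ hat C ⊆ F k := by
  by_contra hcon
  push Not at hcon
  let e : ℕ ≃ ℤ := (Equiv.intEquivNat).symm
  have hstep : ∀ (k : ℕ) (C : Set ℤ), ∃ C' : Set ℤ, C ∈ 𝔹 → C.Nonempty →
      C' ∈ 𝔹 ∧ C'.Nonempty ∧ C' ⊆ C ∧ (∀ p ∈ F k, C' ∉ p.1) ∧ ∃ e', C' ⊆ (D (e k) e')ᶜ := by
    intro k C
    by_cases h : C ∈ 𝔹 ∧ C.Nonempty
    · obtain ⟨hC, hne⟩ := h
      obtain ⟨p, hpC, hpF⟩ := not_subset.1 (hcon k C hC hne)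
      obtain ⟨B, hB1, hB2⟩ := isOpen_iffK.1 (hF k).isOpen_compl p hpF
      have hBC : B ∩ C ∈ p.1 := mem_inter h𝔹.out p hB1 hpC
      have hinf := h𝔹.out.inf (B ∩ C) (mem_alg hBC) (nonempty_of_mem' hBC)
      obtain ⟨a, ha1, ha2⟩ := (hinf.sdiff (finite_singleton (e k))).nonempty
      refine ⟨(B ∩ C) ∩ (D (e k) a)ᶜ, fun _ _ => ⟨?_, ⟨a, ha1, ?_⟩, ?_, ?_, a, inter_subset_right⟩⟩
      · exact h𝔹.out.inter_mem _ (mem_alg hBC) _ (h𝔹.out.compl_mem _ (hD.mem _ _))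
      · exact hD.right _ _ fun h => ha2 h.symm
      · exact fun x hx => hx.1.2
      · intro q hqF hq
        exact hB2 q (mem_mono q hq (mem_alg hB1) fun x hx => hx.1.1) hqF
    · exact ⟨∅, fun h1 h2 => absurd ⟨h1, h2⟩ h⟩
  choose step hst using hstep
  let C : ℕ → Set ℤ := fun k => Nat.rec univ (fun k S => step k S) k
  have hCs : ∀ k, C (k + 1) = step k (C k) := fun _ => rfl
  have hCm : ∀ k, C k ∈ 𝔹 ∧ (C k).Nonempty := by
    intro k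
    induction k with
    | zero => exact ⟨h𝔹.out.univ_mem, univ_nonempty⟩
    | succ k ih =>
      rw [hCs]
      exact ⟨(hst k (C k) ih.1 ih.2).1, (hst k (C k) ih.1 ih.2).2.1⟩
  have hanti : Antitone C := antitone_nat_of_succ_le fun k => by
    rw [hCs]
    exact (hst k (C k) (hCm k).1 (hCm k).2).2.2.1
  have hne : NeBot (⨅ k, 𝓟 (C k)) := by
    refine iInf_neBot_of_directed ?_ fun k => principal_neBot_iff.2 (hCm k).2
    intro k l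
    exact ⟨max k l, principal_mono.2 (hanti (le_max_left _ _)),
      principal_mono.2 (hanti (le_max_right _ _))⟩
  let u : Ultrafilter ℤ := Ultrafilter.of (⨅ k, 𝓟 (C k))
  have hu : ∀ k, C k ∈ u := fun k =>
    Ultrafilter.of_le _ (mem_iInf_of_mem k (mem_principal_self _))
  let p : Pts 𝔹 D := ⟨{B | B ∈ 𝔹 ∧ B ∈ u}, ⟨u, rfl⟩, Or.inr fun a => by
    obtain ⟨k, rfl⟩ := e.surjective a
    obtain ⟨e', he'⟩ := (hst k (C k) (hCm k).1 (hCm k).2).2.2.2.2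
    refine ⟨e', fun h => ?_⟩
    have h1 : (D (e k) e')ᶜ ∈ u := mem_of_superset (hu (k + 1)) he'
    exact (Ultrafilter.compl_mem_iff_notMem.1 h1) h.2⟩
  have hp : p ∈ ⋃ k, F k := by
    rw [hc]
    exact mem_univ p
  obtain ⟨k, hk⟩ := mem_iUnion.1 hp
  exact (hst k (C k) (hCm k).1 (hCm k).2).2.2.2.1 p hk ⟨(hCm (k + 1)).1, hu (k + 1)⟩

theorem not_k1Embedded (hD : Sep 𝔹 D) : ¬ K1Embedded (range (emb 𝔹 D)) := by
  intro h
  have hch : ∀ x : range (emb 𝔹 D), ∃ e, emb 𝔹 D e = x.1 := fun x => x.2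
  choose c hc using hch
  have hK1 : IsK1 fun x : range (emb 𝔹 D) => (c x : ℝ) := by
    intro V _
    have : (fun x : range (emb 𝔹 D) => (c x : ℝ)) ⁻¹' V =
        ⋃ e : {e : ℤ // (e : ℝ) ∈ V}, (Subtype.val ⁻¹' {emb 𝔹 D e.1} : Set (range (emb 𝔹 D))) := by
      ext x
      constructor
      · intro hx
        exact mem_iUnion.2 ⟨⟨c x, hx⟩, (hc x).symm⟩
      · intro hx
        obtain ⟨⟨e, he⟩, hxe⟩ := mem_iUnion.1 hx
        have h1 : x.1 = emb 𝔹 D e := hxe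
        have h2 : c x = e := emb_inj ((hc x).trans h1)
        change (c x : ℝ) ∈ V
        rw [h2]
        exact he
    rw [this]
    exact FunAdd.iUnion fun e =>
      ((funClosed_singleton hD e.1).preimage continuous_subtype_val).funAdd
  obtain ⟨g, hg1, hg2⟩ := h _ hK1
  have hge : ∀ e : ℤ, g (emb 𝔹 D e) = e := by
    intro e
    have h1 := hg2 ⟨emb 𝔹 D e, e, rfl⟩
    have h2 : c ⟨emb 𝔹 D e, e, rfl⟩ = e := emb_inj (hc ⟨emb 𝔹 D e, e, rfl⟩)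
    rw [h1, h2]
  -- cover by preimages of short intervals
  have h1 : ∀ i : ℤ, ∃ F : ℕ → Set (Pts 𝔹 D), (∀ n, FunClosed (F n)) ∧
      g ⁻¹' (Ioo ((i : ℝ) / 2) ((i : ℝ) / 2 + 1)) = ⋃ n, F n := fun i => hg1 _ isOpen_Ioo
  choose F hF1 hF2 using h1
  let e : ℕ → ℤ × ℕ := fun k => ((Equiv.intEquivNat).symm (Nat.unpair k).1, (Nat.unpair k).2)
  obtain ⟨k, C, hC, hne, hsub⟩ := baire hD (fun k => F (e k).1 (e k).2)
    (fun k => (hF1 _ _).isClosed) (by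
    refine eq_univ_of_forall fun p => ?_
    have h2 : p ∈ g ⁻¹' (Ioo ((⌈2 * g p⌉ - 1 : ℤ) / 2 : ℝ) ((⌈2 * g p⌉ - 1 : ℤ) / 2 + 1)) := by
      have h3 := Int.le_ceil (2 * g p)
      have h4 := Int.ceil_lt_add_one (2 * g p)
      refine ⟨?_, ?_⟩
      · push_cast
        linarith
      · push_cast
        linarith
    have h5 := hF2 (⌈2 * g p⌉ - 1)
    rw [h5] at h2
    obtain ⟨n, hn⟩ := mem_iUnion.1 h2
    refine mem_iUnion.2 ⟨Nat.pair (Equiv.intEquivNat (⌈2 * g p⌉ - 1)) n, ?_⟩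
    simpa [e] using hn)
  have hinf := h𝔹.out.inf C hC hne
  obtain ⟨a, ha⟩ := hinf.nonempty
  obtain ⟨b, hb, hba⟩ := (hinf.sdiff (finite_singleton a)).nonempty
  have h6 : ∀ x ∈ C, (x : ℝ) ∈ Ioo (((e k).1 : ℝ) / 2) (((e k).1 : ℝ) / 2 + 1) := by
    intro x hx
    have h7 : emb 𝔹 D x ∈ ⋃ n, F (e k).1 n :=
      mem_iUnion.2 ⟨(e k).2, hsub ((mem_emb (D := D) hC).2 hx)⟩
    rw [← hF2 (e k).1] at h7
    have h8 : g (emb 𝔹 D x) ∈ Ioo (((e k).1 : ℝ) / 2) (((e k).1 : ℝ) / 2 + 1) := h7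
    rwa [hge x] at h8
  have h7 := h6 a ha
  have h8 := h6 b hb
  apply hba
  have h9 : (b : ℝ) < a + 1 := by linarith [h7.1, h8.2]
  have h10 : (a : ℝ) < b + 1 := by linarith [h8.1, h7.2]
  have h11 : b < a + 1 := by exact_mod_cast h9
  have h12 : a < b + 1 := by exact_mod_cast h10
  have : b = a := by omega
  exact this

/-- There are a zero-dimensional Hausdorff space `X` and a countable subspace `E` of `X` that is
`K₁*`-embedded but not `K₁`-embedded in `X`. -/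
theorem result : ∃ (X : Type) (_ : TopologicalSpace X) (E : Set X), T2Space X ∧
    TopologicalSpace.IsTopologicalBasis {s : Set X | IsClopen s} ∧ E.Countable ∧
      K1StarEmbedded E ∧ ¬ K1Embedded E := by
  classical
  obtain ⟨𝔹, h𝔹, hmax⟩ := exists_maximal_alg
  have : Fact (Alg 𝔹) := ⟨h𝔹⟩
  have h1 : ∀ a b : ℤ, ∃ B ∈ 𝔹, a ∈ B ∧ (a ≠ b → b ∉ B) := by
    intro a b
    by_cases hab : a = b
    · exact ⟨univ, h𝔹.univ_mem, mem_univ a, fun h => absurd hab h⟩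
    · obtain ⟨B, hB, h2, h3⟩ := h𝔹.sep a b hab
      exact ⟨B, hB, h2, fun _ => h3⟩
  choose D hD1 hD2 hD3 using h1
  have hD : Sep 𝔹 D := ⟨hD1, hD2, hD3⟩
  exact ⟨Pts 𝔹 D, inferInstance, range (emb 𝔹 D), t2K, basisK, countable_range _,
    k1StarEmbedded_of_trace (exists_trace hmax hD), not_k1Embedded hD⟩

end Pool.Agent.Results.MP_b12a75_gt.BoundedNotUnbounded
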